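import Pool.Agent.Helper55_DDQ.Stmts

/-!
Squad DDQ, module TRL: the transfer lemma.
-/

set_option autoImplicit false

namespace Pool.Agent.DDQ.H67

open MvPolynomial IntermediateField

section disj

variable {k K L : Type} [Field k] [Field K] [Field L] [Algebra k K] [Algebra K L] [Algebra k L]
  [IsScalarTower k K L] {s : ℕ} {T : Fin s → L}

/-- a family algebraically independent over `K`, and a family of `K` linearly independent over `k` -/
theorem lin_indep (hT : AlgebraicIndependent K T) {ι : Type} [Fintype ι] {b : ι → K}
    (hb : LinearIndependent k b) (p : ι → MvPolynomial (Fin s) k)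
    (h : ∑ i, aeval T (p i) * algebraMap K L (b i) = 0) (i : ι) : p i = 0 := by
  have h1 : aeval T (∑ i, C (b i) * map (algebraMap k K) (p i)) = 0 := by
    rw [← h, map_sum]
    apply Finset.sum_congr rfl
    intro i _
    rw [map_mul, mul_comm, aeval_C, aeval_map_algebraMap]
  have h2 : ∑ i, C (b i) * map (algebraMap k K) (p i) = 0 := by
    apply hT
    rw [h1, map_zero]
  ext m
  have h3 := congrArg (coeff m) h2
  rw [coeff_sum, coeff_zero] at h3
  have h4 : ∑ i, (coeff m (p i)) • b i = 0 := by
    rw [← h3]
    apply Finset.sum_congr rfl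
    intro i _
    rw [coeff_C_mul, coeff_map, Algebra.smul_def, mul_comm]
  rw [coeff_zero]
  exact Fintype.linearIndependent_iff.1 hb _ h4 i

open scoped IntermediateField.algebraAdjoinAdjoin in
theorem disjoint [FiniteDimensional k K] (hT : AlgebraicIndependent K T) :
    (adjoin k (Set.range T)).LinearDisjoint K := by
  let b := Module.finBasis k K
  refine LinearDisjoint.of_basis_right' b ?_
  rw [← LinearIndependent.iff_fractionRing (Algebra.adjoin k (Set.range T))
    (adjoin k (Set.range T)), Fintype.linearIndependent_iff]
  intro g hg i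
  have h1 : ∀ i, ∃ p : MvPolynomial (Fin s) k, aeval T p = (g i : L) := by
    intro i
    have h := Algebra.adjoin_range_eq_range_aeval k T
    have h0 : (g i : L) ∈ (aeval T : MvPolynomial (Fin s) k →ₐ[k] L).range := by
      rw [← h]
      exact (g i).2
    exact h0
  choose p hp using h1
  have h2 := lin_indep hT b.linearIndependent p (by
    rw [← hg]
    apply Finset.sum_congr rfl
    intro i _
    rw [hp, Algebra.smul_def]
    rfl) i
  apply Subtype.ext
  rw [← hp, h2, map_zero]
  rfl

theorem finrank_mul [FiniteDimensional k K] (hT : AlgebraicIndependent K T) :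
    Module.finrank (adjoin k (Set.range T)) L =
      Module.finrank k K * Module.finrank (adjoin K (Set.range T)) L := by
  have h1 := (disjoint (k := k) hT).rank_right_mul_adjoin_rank_eq_of_isAlgebraic_right
  have h2 : adjoin K ((adjoin k (Set.range T) : IntermediateField k L) : Set L) =
      adjoin K (Set.range T) := by
    apply le_antisymm
    · rw [adjoin_le_iff]
      have h3 : adjoin k (Set.range T) ≤ (adjoin K (Set.range T)).restrictScalars k := by
        rw [adjoin_le_iff]
        exact subset_adjoin K _
      exact h3
    · rw [adjoin_le_iff]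
      exact (subset_adjoin k _).trans (subset_adjoin K _)
  rw [h2] at h1
  rw [Module.finrank, Module.finrank, Module.finrank, ← h1, Cardinal.toNat_mul]

theorem indep_add (hT : AlgebraicIndependent K T) (a : Fin s → K) :
    AlgebraicIndependent K (fun i => T i + algebraMap K L (a i)) := by
  have h1 : ∀ P : MvPolynomial (Fin s) K, aeval (fun i => T i + algebraMap K L (a i)) P =
      aeval T (aeval (fun i => X i + C (a i)) P) := by
    intro P
    have h : (aeval (fun i => T i + algebraMap K L (a i)) : MvPolynomial (Fin s) K →ₐ[K] L) =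
        (aeval T).comp (aeval (fun i => X i + C (a i))) := by
      apply MvPolynomial.algHom_ext
      intro i
      simp
    rw [h]
    rfl
  have h2 : ∀ P : MvPolynomial (Fin s) K,
      aeval (fun i => X i - C (a i)) (aeval (fun i => (X i + C (a i) : MvPolynomial (Fin s) K)) P)
        = P := by
    intro P
    have h : ((aeval (fun i => (X i - C (a i) : MvPolynomial (Fin s) K))).comp
        (aeval (fun i => (X i + C (a i) : MvPolynomial (Fin s) K))) :
          MvPolynomial (Fin s) K →ₐ[K] MvPolynomial (Fin s) K) = AlgHom.id K _ := by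
      apply MvPolynomial.algHom_ext
      intro i
      simp
    have := congrArg (fun f => f P) h
    exact this
  intro P Q hPQ
  rw [h1, h1] at hPQ
  have h3 := hT hPQ
  rw [← h2 P, h3, h2]

theorem adjoin_add_le (a : Fin s → K) :
    adjoin K (Set.range (fun i => T i + algebraMap K L (a i))) ≤ adjoin K (Set.range T) := by
  rw [adjoin_le_iff]
  rintro _ ⟨i, rfl⟩
  exact add_mem (subset_adjoin K _ ⟨i, rfl⟩) (IntermediateField.algebraMap_mem _ _)

theorem adjoin_add (a : Fin s → K) :
    adjoin K (Set.range (fun i => T i + algebraMap K L (a i))) = adjoin K (Set.range T) := by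
  apply le_antisymm (adjoin_add_le a)
  have h := adjoin_add_le (T := fun i => T i + algebraMap K L (a i)) (fun i => - a i)
  have h1 : (fun i => (fun i => T i + algebraMap K L (a i)) i + algebraMap K L ((fun i => - a i) i))
      = T := by
    funext i
    simp
  rw [h1] at h
  exact h

/-- the field generated over `k` by `w` and by `T i + j c` contains `c`, for a suitable `j` -/
theorem exists_shift [CharZero k] [FiniteDimensional k K] {r : ℕ} {w : Fin r → L}
    (hw : adjoin K (Set.range w) = ⊤) (t : L) :
    ∃ c : K, adjoin k {t + algebraMap K L c} ⊔ adjoin k (Set.range w) = ⊤ := by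
  obtain ⟨c, hc⟩ := Field.exists_primitive_element k K
  -- a subfield containing `w` and `c` is everything
  have key : ∀ M : IntermediateField k L, adjoin k (Set.range w) ≤ M → algebraMap K L c ∈ M →
      M = ⊤ := by
    intro M h1 h2
    have h3 : ∀ x : K, algebraMap K L x ∈ M := by
      intro x
      have h4 : (⊤ : IntermediateField k K).map (IsScalarTower.toAlgHom k K L) ≤ M := by
        rw [← hc, adjoin_map, adjoin_le_iff]
        rintro _ ⟨y, hy, rfl⟩
        rw [Set.mem_singleton_iff] at hy
        rw [hy]
        exact h2
      exact h4 ⟨x, trivial, rfl⟩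
    let M' : IntermediateField K L := M.toSubfield.toIntermediateField h3
    have h5 : adjoin K (Set.range w) ≤ M' := by
      rw [adjoin_le_iff]
      exact (subset_adjoin k _).trans h1
    rw [eq_top_iff]
    intro x _
    have h6 : x ∈ adjoin K (Set.range w) := by
      rw [hw]
      trivial
    exact h5 h6
  let L₁ : IntermediateField k L := adjoin k (Set.range w)
  have hint : IsIntegral L₁ (algebraMap K L c) := by
    have h : IsIntegral k (algebraMap K L c) :=
      (IsIntegral.of_finite k c).algebraMap
    exact h.tower_top
  have htop : adjoin L₁ {algebraMap K L c} = ⊤ := by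
    have h := key ((adjoin L₁ {algebraMap K L c}).restrictScalars k) ?_ ?_
    · rw [eq_top_iff]
      intro x _
      have h6 : x ∈ (adjoin L₁ {algebraMap K L c}).restrictScalars k := by
        rw [h]
        trivial
      exact h6
    · intro x hx
      exact IntermediateField.algebraMap_mem (adjoin L₁ {algebraMap K L c}) (⟨x, hx⟩ : L₁)
    · exact subset_adjoin L₁ _ rfl
  have hfin : FiniteDimensional L₁ L := by
    have h1 : FiniteDimensional L₁ (adjoin L₁ {algebraMap K L c}) := adjoin.finiteDimensional hint
    rw [htop] at h1
    exact Module.Finite.equiv (IntermediateField.topEquiv (F := L₁) (E := L)).toLinearEquiv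
  have hfi : Finite (IntermediateField L₁ L) :=
    Field.finite_intermediateField_of_exists_primitive_element L₁ L ⟨_, htop⟩
  obtain ⟨i, j, hij, h⟩ := Finite.exists_ne_map_eq_of_infinite
    (fun j : ℕ => adjoin L₁ {t + algebraMap K L (j * c)})
  have hch : CharZero L := charZero_of_injective_algebraMap (algebraMap k L).injective
  have hij' : (i : L) - (j : L) ≠ 0 := by
    rw [sub_ne_zero]
    exact fun h => hij (Nat.cast_injective h)
  have h1 : t + algebraMap K L (i * c) ∈ adjoin L₁ {t + algebraMap K L (i * c)} :=
    subset_adjoin L₁ _ rfl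
  have h2 : t + algebraMap K L (j * c) ∈ adjoin L₁ {t + algebraMap K L (i * c)} := by
    have h' : adjoin L₁ {t + algebraMap K L (i * c)} = adjoin L₁ {t + algebraMap K L (j * c)} := h
    rw [h']
    exact subset_adjoin L₁ _ rfl
  have h3 := sub_mem h1 h2
  have h4 : algebraMap K L c ∈ adjoin L₁ {t + algebraMap K L (i * c)} := by
    have h5 : algebraMap K L c = ((i : L) - (j : L))⁻¹ *
        (t + algebraMap K L (i * c) - (t + algebraMap K L (j * c))) := by
      rw [map_mul, map_mul, map_natCast, map_natCast]
      field_simp
      ring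
    rw [h5]
    exact mul_mem (inv_mem (sub_mem (_root_.natCast_mem _ _) (_root_.natCast_mem _ _))) h3
  refine ⟨i * c, ?_⟩
  rw [sup_comm]
  have h6 := restrictScalars_adjoin_eq_sup (F := k) L₁ ({t + algebraMap K L (i * c)} : Set L)
  have h7 : adjoin k (Set.range w) = L₁ := rfl
  rw [h7, ← h6]
  apply key
  · rw [h6]
    exact le_sup_left
  · exact h4

end disj

/-- TRL -/
theorem trl (hit : HitStmt) : TrlStmt := by
  intro k K L _ _ _ _ _ _ _ _ _ r s T w n hs hn hT hw hfr G hG
  obtain ⟨c, hc⟩ := exists_shift (k := k) hw (T ⟨0, hs⟩)
  have hT' := indep_add hT (fun _ => c)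
  have hfr' := finrank_mul (k := k) hT'
  rw [adjoin_add, hfr] at hfr'
  have hpos : 0 < Module.finrank k K := Module.finrank_pos
  have htop : adjoin k (Set.range (fun i => T i + algebraMap K L c) ∪ Set.range w) = ⊤ := by
    rw [eq_top_iff, ← hc, adjoin_union]
    apply sup_le_sup _ le_rfl
    apply adjoin.mono
    intro x hx
    rw [Set.mem_singleton_iff] at hx
    rw [hx]
    exact ⟨⟨0, hs⟩, rfl⟩
  have hfin : FiniteDimensional (adjoin k (Set.range (fun i => T i + algebraMap K L c))) L := by
    apply Module.finite_of_finrank_pos
    rw [hfr']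
    exact Nat.mul_pos hpos hn
  obtain ⟨y, h1, h2, h3⟩ := hit k L r s (fun i => T i + algebraMap K L c) w
    (hT'.restrictScalars (algebraMap k K).injective) htop hfin G hG
  exact ⟨y, h1, h2, by rw [h3, hfr', mul_comm]⟩

end Pool.Agent.DDQ.H67
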